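import Pool.Agent.Lib.MP_ed43e6_ag.Final

/-! The Hilbert scheme of `d` points of affine three-space over an algebraically closed field of
any characteristic is irreducible for every `d ≤ 12`. -/

namespace Pool.Agent.Results.MP_ed43e6_ag.IrreducibleUpTo12

open MvPolynomial

universe u

/-- The `k`-points of the Hilbert scheme of `d` points of affine three-space: the ideals `I` of
`k[x₀, x₁, x₂]` with `dim_k k[x₀, x₁, x₂] / I = d`. -/
structure Hilb (k : Type u) [Field k] (d : ℕ) where
  I : Ideal (MvPolynomial (Fin 3) k)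
  finite : Module.Finite k (MvPolynomial (Fin 3) k ⧸ I)
  rank : Module.finrank k (MvPolynomial (Fin 3) k ⧸ I) = d

/-- The frame bundle of the tautological bundle: an ideal of colength `d` together with a
`k`-basis of the quotient ring. -/
structure Framed (k : Type u) [Field k] (d : ℕ) where
  pt : Hilb k d
  b : Module.Basis (Fin d) k (MvPolynomial (Fin 3) k ⧸ pt.I)

/-- Affine coordinates of a framed ideal: the entries of the three matrices of multiplication by
`x₀, x₁, x₂` in the basis, and the coordinates of the unit `1` in the basis. -/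
noncomputable def coords {k : Type u} [Field k] {d : ℕ} (F : Framed k d) :
    (Fin 3 × Fin d × Fin d) ⊕ Fin d → k :=
  Sum.elim (fun v => Algebra.leftMulMatrix F.b (Ideal.Quotient.mk F.pt.I (X v.1)) v.2.1 v.2.2)
    (fun a => F.b.repr 1 a)

/-- The Zariski topology on the affine space `k^σ`, induced from the spectrum of `k[σ]`. -/
noncomputable def zariski (k : Type u) [Field k] (σ : Type) : TopologicalSpace (σ → k) :=
  TopologicalSpace.induced (pointToPoint (k := k) (K := k) (σ := σ)) PrimeSpectrum.zariskiTopology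

/-- The Zariski topology on the `k`-points of the Hilbert scheme: the quotient, along the
`GL_d`-torsor that forgets the basis, of the Zariski topology of the framed ideals. -/
noncomputable def hilbTop (k : Type u) [Field k] (d : ℕ) : TopologicalSpace (Hilb k d) :=
  TopologicalSpace.coinduced Framed.pt (TopologicalSpace.induced coords (zariski k _))

theorem range_coords (k : Type u) [Field k] (d : ℕ) :
    Set.range (coords (k := k) (d := d)) = Lib.MP_ed43e6_ag.tables k (Fin d) := by
  have key : ∀ F : Framed k d, coords F = Sum.elim (Lib.MP_ed43e6_ag.ent fun i =>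
      LinearMap.toMatrix F.b F.b (Lib.MP_ed43e6_ag.act k (_ ⧸ F.pt.I) i)) (F.b.repr 1) := by
    intro F
    unfold coords
    congr 1
  ext x
  constructor
  · rintro ⟨F, rfl⟩
    exact ⟨F.pt.I, F.b, key F⟩
  · rintro ⟨I, b, rfl⟩
    exact ⟨⟨⟨I, Module.Finite.of_basis b, by simp [Module.finrank_eq_card_basis b]⟩, b⟩, key _⟩

theorem irreducible_induced {A B : Type*} [t : TopologicalSpace B] (f : A → B)
    (h : IsIrreducible (Set.range f)) : @IsIrreducible A (t.induced f) Set.univ := by
  obtain ⟨⟨_, a, rfl⟩, h⟩ := h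
  refine ⟨⟨a, trivial⟩, ?_⟩
  rintro _ _ ⟨U, hU, rfl⟩ ⟨V, hV, rfl⟩ ⟨x, -, hx⟩ ⟨y, -, hy⟩
  obtain ⟨_, ⟨z, rfl⟩, hz⟩ := h U V hU hV ⟨_, ⟨x, rfl⟩, hx⟩ ⟨_, ⟨y, rfl⟩, hy⟩
  exact ⟨z, trivial, hz⟩

theorem result (k : Type u) [Field k] [IsAlgClosed k] (d : ℕ) (hd : d ≤ 12) :
    @IrreducibleSpace (Hilb k d) (hilbTop k d) := by
  have h1 : IsIrreducible (Set.range (pointToPoint (k := k) ∘ coords (k := k) (d := d))) := by
    rw [PrimeSpectrum.isIrreducible_iff_vanishingIdeal_isPrime, Set.range_comp,
      vanishingIdeal_pointToPoint, range_coords]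
    exact Lib.MP_ed43e6_ag.tables_prime (by simpa using hd)
  have h2 := irreducible_induced _ h1
  rw [← induced_compose] at h2
  let tF : TopologicalSpace (Framed k d) := TopologicalSpace.induced coords (zariski k _)
  let tH := hilbTop k d
  have h3 : IsIrreducible (Framed.pt '' (Set.univ : Set (Framed k d))) :=
    IsIrreducible.image h2 _ continuous_coinduced_rng.continuousOn
  rw [Set.image_univ, Set.range_eq_univ.2 fun p => ⟨⟨p, by
    have := p.finite
    exact Module.finBasisOfFinrankEq k _ p.rank⟩, rfl⟩] at h3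
  exact (irreducibleSpace_def _).2 h3

end Pool.Agent.Results.MP_ed43e6_ag.IrreducibleUpTo12
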